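import Mathlib
import Pool.Agent.Y184.SP.Base3

set_option autoImplicit false

open Set Topology Filter
open scoped ContDiff Manifold

namespace Pool.Agent.Y484.SP

open Pool.Agent.Y184.SP

/-- the surface is a compact connected Hausdorff complex manifold -/
theorem man_holds (hPt : StPt) (hGerm : StGerm) (hSep : StSep) (hCpt : StCpt)
    (hGlue : StGlue) : StMan := by
  obtain ⟨hV, hcov, -, htr, -, -, -, -⟩ := hPt
  obtain ⟨hinj, hgerm⟩ := hGerm
  obtain ⟨⟨C, hC, hCcov⟩, hdense, hWconn⟩ := hCpt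
  obtain ⟨τ, ch, hman, hopen, himg, hkap, hinv⟩ := hGlue X (Fin 5) V kap hV hcov hinj hgerm
  have hM : IsMan τ ch := ⟨hman, hopen, himg, hkap, hinv⟩
  have hcont : ∀ i, ∀ z ∈ V i, ContinuousAt (kap i) z :=
    fun i z hz => (hkap i z hz).continuousAt
  refine ⟨τ, ch, hM, ?_, ?_, ?_⟩
  · -- compactness
    constructor
    have huniv : (Set.univ : Set X) = ⋃ j, kap j '' C j := by
      symm
      rw [Set.eq_univ_iff_forall]
      intro p
      obtain ⟨j, z, hz, hp⟩ := hCcov p
      exact Set.mem_iUnion.mpr ⟨j, z, hz, hp⟩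
    rw [huniv]
    refine isCompact_iUnion fun j => ?_
    refine (hC j).1.image_of_continuousOn ?_
    intro z hz
    exact (hcont j z ((hC j).2 hz)).continuousWithinAt
  · -- the Hausdorff property
    constructor
    intro p q hpq
    obtain ⟨i, z, hz, rfl⟩ := hcov p
    obtain ⟨j, z', hz', rfl⟩ := hcov q
    obtain ⟨N, hN, N', hN', hNN⟩ := hSep i j z hz z' hz' hpq
    refine ⟨kap i '' (interior N ∩ V i), kap j '' (interior N' ∩ V j), ?_, ?_, ?_, ?_, ?_⟩
    · exact himg i _ (isOpen_interior.inter (hV i)) Set.inter_subset_right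
    · exact himg j _ (isOpen_interior.inter (hV j)) Set.inter_subset_right
    · exact ⟨z, ⟨mem_interior_iff_mem_nhds.mpr hN, hz⟩, rfl⟩
    · exact ⟨z', ⟨mem_interior_iff_mem_nhds.mpr hN', hz'⟩, rfl⟩
    · rw [Set.disjoint_left]
      rintro _ ⟨t, ht, rfl⟩ ⟨t', ht', h⟩
      exact hNN t (interior_subset ht.1) t' (interior_subset ht'.1) h.symm
  · -- connectedness
    have hWV : W ⊆ V 0 := fun z hz => Or.inl hz.1
    have hpre : IsPreconnected (kap 0 '' W) :=
      hWconn.image _ fun z hz => (hcont 0 z (hWV hz)).continuousWithinAt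
    have hcl : closure (kap 0 '' W) = Set.univ := by
      rw [Set.eq_univ_iff_forall]
      intro p
      obtain ⟨j, z, hz, rfl⟩ := hcov p
      have h1 := hdense j z hz
      rw [mem_closure_iff_nhds]
      intro t ht
      have h2 : (kap j) ⁻¹' t ∩ V j ∈ 𝓝 z :=
        Filter.inter_mem (hcont j z hz ht) ((hV j).mem_nhds hz)
      obtain ⟨z', ⟨h3, h4⟩, h5⟩ := mem_closure_iff_nhds.mp h1 _ h2
      exact ⟨kap j z', h3, tr j z', h5, (htr j z' h4 h5).symm⟩
    have hp : PreconnectedSpace X := ⟨by rw [← hcl]; exact hpre.closure⟩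
    exact { toPreconnectedSpace := hp, toNonempty := ⟨base⟩ }

end Pool.Agent.Y484.SP
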