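import Pool.Agent.Y395.SP.Stm2
import Pool.Agent.Y395.SP.Asm

/-! Adaptive relabelling of the keys (job SP2-RUN of helper395). -/

set_option autoImplicit false

namespace Pool.Agent.Y484.SP.RUN

open Pool.Agent.H581R2.Splay Pool.Agent.TH49.Spl Pool.Agent.Y395.SP

/-- the relabelled history -/
noncomputable def G (Φ : List ℕ → List ℕ → Equiv.Perm ℕ) : List ℕ → List ℕ
  | [] => []
  | x :: h => Φ h (G Φ h) x :: G Φ h

theorem recode_length (σ : List ℕ → Equiv.Perm ℕ) (X : List ℕ) :
    ∀ h, (recode σ h X).length = X.length := by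
  induction X with
  | nil => intro h; rfl
  | cons x X ih =>
    intro h
    simp only [recode, List.length_cons, ih]

theorem recode_mem {σ : List ℕ → Equiv.Perm ℕ} {K : Finset ℕ} (hσ : ∀ h x, x ∈ K ↔ σ h x ∈ K)
    (X : List ℕ) : ∀ h, (∀ x ∈ X, x ∈ K) → ∀ y ∈ recode σ h X, y ∈ K := by
  induction X with
  | nil =>
    intro h _ y hy
    simp only [recode, List.not_mem_nil] at hy
  | cons x X ih =>
    intro h hX y hy
    simp only [recode, List.mem_cons] at hy
    rcases hy with rfl | hy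
    · exact (hσ h x).1 (hX x (by simp))
    · exact ih (x :: h) (fun z hz => hX z (by simp [hz])) y hy

theorem G_mem {Φ : List ℕ → List ℕ → Equiv.Perm ℕ} {K : Finset ℕ}
    (hΦ : ∀ h g x, x ∈ K ↔ Φ h g x ∈ K) (h : List ℕ) :
    (∀ y ∈ h, y ∈ K) → ∀ y ∈ G Φ h, y ∈ K := by
  induction h with
  | nil =>
    intro _ y hy
    simp only [G, List.not_mem_nil] at hy
  | cons x h ih =>
    intro hh y hy
    simp only [G, List.mem_cons] at hy
    rcases hy with rfl | hy
    · exact (hΦ h (G Φ h) x).1 (hh x (by simp))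
    · exact ih (fun z hz => hh z (by simp [hz])) y hy

/-- the telescoping sum -/
theorem wsum_le {Φ : List ℕ → List ℕ → Equiv.Perm ℕ} {K : Finset ℕ} {V : List ℕ → ℝ}
    (hΦ : ∀ h g x, x ∈ K ↔ Φ h g x ∈ K) (hpos : ∀ h, (∀ y ∈ h, y ∈ K) → 0 < V h)
    (hle : ∀ h g, (∀ y ∈ h, y ∈ K) → (∀ y ∈ g, y ∈ K) → ∀ x ∈ K,
      ((ws g (Φ h g x) : ℝ) + 1) * V (x :: h) ≤ V h) (X : List ℕ) :
    ∀ h, (∀ x ∈ X, x ∈ K) → (∀ y ∈ h, y ∈ K) →
      wsum (G Φ h) (recode (fun h => Φ h (G Φ h)) h X) ≤
        Real.logb 2 (V h) - Real.logb 2 (V (X.reverse ++ h)) := by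
  induction X with
  | nil =>
    intro h _ _
    simp only [recode, wsum, List.reverse_nil, List.nil_append, sub_self, le_refl]
  | cons x X ih =>
    intro h hX hh
    have hx : x ∈ K := hX x (by simp)
    have hxh : ∀ y ∈ x :: h, y ∈ K := by
      intro y hy
      rcases List.mem_cons.1 hy with rfl | hy
      · exact hx
      · exact hh y hy
    have h1 := ih (x :: h) (fun z hz => hX z (by simp [hz])) hxh
    have h2 := hle h (G Φ h) hh (G_mem hΦ h hh) x hx
    have hp1 := hpos (x :: h) hxh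
    have hw : (0 : ℝ) < (ws (G Φ h) (Φ h (G Φ h) x) : ℝ) + 1 := by positivity
    have h3 : Real.logb 2 ((ws (G Φ h) (Φ h (G Φ h) x) : ℝ) + 1) + Real.logb 2 (V (x :: h)) ≤
        Real.logb 2 (V h) := by
      rw [← Real.logb_mul hw.ne' hp1.ne']
      exact Real.logb_le_logb_of_le (by norm_num) (mul_pos hw hp1) h2
    have h4 : (x :: X).reverse ++ h = X.reverse ++ x :: h := by
      rw [List.reverse_cons, List.append_assoc, List.singleton_append]
    rw [h4]
    have h5 : wsum (G Φ h) (recode (fun h => Φ h (G Φ h)) h (x :: X)) =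
        Real.logb 2 ((ws (G Φ h) (Φ h (G Φ h) x) : ℝ) + 1) +
          wsum (G Φ (x :: h)) (recode (fun h => Φ h (G Φ h)) (x :: h) X) := rfl
    rw [h5]
    linarith

/-- **Job SP2-RUN.** -/
theorem main (hV : SVex) (hP : SPerm) : SRelab := by
  intro T hT hn
  obtain ⟨V, hV0, hV1, hV2⟩ := hV (keys T).toFinset
    (fun X => 10 * optAny (keys T) X + 2 * (keys T).length + 3)
    (fun m => kraft2_holds m (keys T) hT)
  have hpos : ∀ h, (∀ y ∈ h, y ∈ (keys T).toFinset) → 0 < V h := fun h hh =>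
    lt_of_lt_of_le (by positivity) (hV2 h hh)
  have hex : ∀ h g : List ℕ, ∃ σ : Equiv.Perm ℕ,
      (∀ x, x ∈ (keys T).toFinset ↔ σ x ∈ (keys T).toFinset) ∧
      ((∀ y ∈ h, y ∈ (keys T).toFinset) → (∀ y ∈ g, y ∈ (keys T).toFinset) →
        ∀ x ∈ (keys T).toFinset, ((ws g (σ x) : ℝ) + 1) * V (x :: h) ≤ V h) := by
    intro h g
    by_cases hhg : (∀ y ∈ h, y ∈ (keys T).toFinset) ∧ ∀ y ∈ g, y ∈ (keys T).toFinset
    · obtain ⟨σ, h1, h2⟩ := hP (keys T).toFinset (fun x => V (x :: h)) (V h) g hhg.2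
        (fun x hx => hpos (x :: h) (by
          intro y hy
          rcases List.mem_cons.1 hy with rfl | hy
          · exact hx
          · exact hhg.1 y hy)) (hV1 h hhg.1)
      exact ⟨σ, h1, fun _ _ => h2⟩
    · exact ⟨1, fun x => Iff.rfl, fun h1 h2 => absurd ⟨h1, h2⟩ hhg⟩
  choose Φ hΦ1 hΦ2 using hex
  have hσ : ∀ h x, x ∈ (keys T).toFinset ↔
      (fun h => Φ h (G Φ h)) h x ∈ (keys T).toFinset := fun h x => hΦ1 h (G Φ h) x
  refine ⟨fun h => Φ h (G Φ h), fun h x => ?_, fun X hX => ?_⟩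
  · have h1 := hσ h x
    rw [List.mem_toFinset, List.mem_toFinset] at h1
    exact h1
  · have hXK : ∀ x ∈ X, x ∈ (keys T).toFinset := fun x hx => List.mem_toFinset.2 (hX x hx)
    have h1 := wsum_le (Φ := Φ) hΦ1 hpos hΦ2 X [] hXK (fun y hy => by simp at hy)
    rw [List.append_nil] at h1
    have hrev : ∀ y ∈ X.reverse, y ∈ (keys T).toFinset := fun y hy =>
      hXK y (List.mem_reverse.1 hy)
    have h2 : Real.logb 2 (V []) ≤ 0 := by
      have h3 := hpos [] (fun y hy => by simp at hy)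
      exact Real.logb_nonpos (by norm_num) h3.le hV0
    have h3 := hV2 X.reverse hrev
    rw [List.reverse_reverse, List.length_reverse] at h3
    have h4 : -((10 * optAny (keys T) X + 2 * (keys T).length + 3 + X.length + 1 : ℕ) : ℝ) ≤
        Real.logb 2 (V X.reverse) := by
      have h5 := Real.logb_le_logb_of_le (b := 2) (by norm_num) (by positivity) h3
      rw [Real.logb_pow] at h5
      have e : Real.logb 2 (1 / 2 : ℝ) = -1 := by
        rw [one_div, Real.logb_inv, Real.logb_self_eq_one (by norm_num)]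
      rw [e] at h5
      linarith
    have h5 := ws_holds T (recode (fun h => Φ h (G Φ h)) [] X) hT hn (fun y hy =>
      List.mem_toFinset.1 (recode_mem hσ X [] hXK y hy))
    rw [recode_length] at h5
    have h6 : (X.length : ℝ) ≤ (optAny (keys T) X : ℝ) := by
      exact_mod_cast len_optAny (T := T) X
    have hn1 : (1 : ℝ) ≤ ((keys T).length : ℝ) := by
      have : 1 ≤ (keys T).length := by
        cases hTc : T with
        | nil => exact absurd hTc hn
        | node a l r => simp only [keys, List.length_append, List.length_cons]; omega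
      exact_mod_cast this
    have hlg : Real.logb 2 (2 * ((keys T).length : ℝ)) = 1 + Real.logb 2 (keys T).length := by
      rw [Real.logb_mul (by norm_num) (by linarith), Real.logb_self_eq_one (by norm_num)]
    have hlg0 : 0 ≤ Real.logb 2 ((keys T).length : ℝ) := Real.logb_nonneg (by norm_num) hn1
    rw [hlg]
    push_cast at h4
    have h7 : wsum [] (recode (fun h => Φ h (G Φ h)) [] X) ≤
        10 * (optAny (keys T) X : ℝ) + 2 * ((keys T).length : ℝ) + 3 + X.length + 1 := by
      have h8 : wsum [] (recode (fun h => Φ h (G Φ h)) [] X) ≤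
        Real.logb 2 (V []) - Real.logb 2 (V X.reverse) := h1
      linarith
    have h9 : 0 ≤ ((keys T).length : ℝ) * Real.logb 2 ((keys T).length : ℝ) :=
      mul_nonneg (by linarith) hlg0
    nlinarith

end Pool.Agent.Y484.SP.RUN
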